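import Pool.Agent.MP_ca0a54_nt.H29.Spec
import Pool.Agent.MP_ca0a54_nt.L0.ZetaA

/-!
The sign of the imaginary part of the quotient of two values of zeta: the argument is a sum of
angles, and the angles of the well separated simple zeros add up to at most `π`.
-/

open Complex MeasureTheory Filter Topology

namespace Pool.Agent.MP_ca0a54_nt.H1

open Pool.Agent.MP_ca0a54_nt.L0 Pool.Agent.MP_ca0a54_nt.H24 Pool.Agent.MP_ca0a54_nt.H29

namespace PARG

lemma atan_le {y x s t : ℝ} (hy : 0 < y) (h : s ≤ t) :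
    Real.arctan ((x - t) / y) ≤ Real.arctan ((x - s) / y) :=
  Real.arctan_strictMono.monotone (div_le_div_of_nonneg_right (by linarith) hy.le)

lemma ang_nonneg {a y : ℝ} (ha : 0 ≤ a) (hy : 0 < y) (x u : ℝ) : 0 ≤ ang a y x u := by
  have := atan_le (x := x) hy (show u - a ≤ u by linarith)
  rw [show x - (u - a) = x + a - u by ring] at this
  exact sub_nonneg.2 this

/-- Disjoint segments are seen under a total angle less than `π`. -/
lemma sum_ang {a y : ℝ} (hy : 0 < y) (x : ℝ) (W : Finset ℝ) :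
    (∀ u ∈ W, ∀ u' ∈ W, u < u' → u + a ≤ u') → ∀ b, (∀ u ∈ W, u ≤ b) →
      ∑ u ∈ W, ang a y x u ≤ Real.pi / 2 - Real.arctan ((x - b) / y) := by
  induction W using Finset.induction_on_max with
  | empty => exact fun _ b _ => by simpa using (Real.arctan_lt_pi_div_two _).le
  | insert v W hv ih =>
    intro h b hb
    have h1 := ih (fun u hu u' hu' => h u (Finset.mem_insert_of_mem hu) u'
      (Finset.mem_insert_of_mem hu')) (v - a) fun u hu => le_sub_iff_add_le.2
        (h u (Finset.mem_insert_of_mem hu) v (Finset.mem_insert_self _ _) (hv u hu))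
    have h2 := atan_le (x := x) hy (hb v (Finset.mem_insert_self _ _))
    rw [Finset.sum_insert fun h' => lt_irrefl _ (hv v h'), ang]
    rw [show x - (v - a) = x + a - v by ring] at h1
    linarith

lemma beta_nonneg (U : Finset ℝ) (m : ℝ → ℕ) {a y : ℝ} (ha : 0 ≤ a) (hy : 0 < y) (x : ℝ) :
    0 ≤ beta U m a y x :=
  Finset.sum_nonneg fun u _ => mul_nonneg (Nat.cast_nonneg _) (ang_nonneg ha hy x u)

lemma total_le (U : Finset ℝ) (m : ℝ → ℕ) {a y : ℝ} (hy : 0 < y) (x : ℝ)
    (hm : ∀ u ∈ U, 1 ≤ m u) :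
    ∑ u ∈ U, (m u : ℝ) * ang a y x u ≤ Real.pi + beta U m a y x := by
  classical
  obtain ⟨b, hb⟩ := U.bddAbove
  have hs : bad U m a ⊆ U := Finset.filter_subset _ _
  have hg : ∀ u ∈ U \ bad U m a, m u = 1 ∧ ∀ u' ∈ U, u < u' → u + a ≤ u' := by
    intro u hu
    obtain ⟨h1, h2⟩ := Finset.mem_sdiff.1 hu
    rw [bad, Finset.mem_filter, not_and, not_or] at h2
    obtain ⟨h3, h4⟩ := h2 h1
    have := hm u h1
    exact ⟨by omega, fun u' hu' h => not_lt.1 fun h' => h4 ⟨u', hu', h, h'⟩⟩
  have h1 := sum_ang (a := a) hy x (U \ bad U m a)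
    (fun u hu u' hu' => (hg u hu).2 u' (Finset.mem_sdiff.1 hu').1) b
    fun u hu => hb (Finset.mem_sdiff.1 hu).1
  have h2 := Real.neg_pi_div_two_lt_arctan ((x - b) / y)
  rw [← Finset.sum_sdiff hs, beta, Finset.sum_congr rfl fun u hu => by
    rw [(hg u hu).1, Nat.cast_one, one_mul]]
  linarith

lemma sin_le {Θ β d : ℝ} (h0 : 0 ≤ Θ) (h1 : Θ ≤ Real.pi + β) (hβ : 0 ≤ β) :
    Real.sin (d - Θ) ≤ min 1 β + |d| := by
  have h2 := Real.abs_sin_sub_sin_le (d - Θ) (-Θ)
  rw [show d - Θ - -Θ = d by ring, Real.sin_neg] at h2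
  have h3 : -Real.sin Θ ≤ min 1 β := by
    refine le_min (by linarith [Real.neg_one_le_sin Θ]) ?_
    rcases le_total Θ Real.pi with h | h
    · linarith [Real.sin_nonneg_of_nonneg_of_le_pi h0 h]
    · rw [← Real.sin_sub_pi]
      linarith [Real.sin_le (sub_nonneg.2 h)]
  linarith [le_abs_self (Real.sin (d - Θ) - -Real.sin Θ)]

lemma fs_cont (U : Finset ℝ) (m : ℝ → ℕ) (a x : ℝ) {y : ℝ} (hy : 0 < y) :
    Continuous fun s : ℝ => Fs U m (x + s * a) y * a := by
  unfold Fs
  refine (continuous_finsetSum _ fun u _ => continuous_const.mul (continuous_const.div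
    (by fun_prop) fun s => ?_)).mul continuous_const
  positivity

lemma fs_int (U : Finset ℝ) (m : ℝ → ℕ) (a x : ℝ) {y : ℝ} (hy : 0 < y) :
    ∫ s in (0 : ℝ)..1, Fs U m (x + s * a) y * a = ∑ u ∈ U, (m u : ℝ) * ang a y x u := by
  rw [intervalIntegral.integral_eq_sub_of_hasDerivAt
    (f := fun s => ∑ u ∈ U, (m u : ℝ) * Real.arctan ((x + s * a - u) / y)) (fun s _ => ?_)
    ((fs_cont U m a x hy).intervalIntegrable _ _)]
  · simp only [ang, mul_sub, Finset.sum_sub_distrib, one_mul, zero_mul, add_zero]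
  · rw [Fs, Finset.sum_mul]
    refine HasDerivAt.fun_sum fun u _ => ?_
    have h1 : HasDerivAt (fun s : ℝ => (x + s * a - u) / y) (a / y) s := by
      simpa using ((((hasDerivAt_id s).mul_const a).const_add x).sub_const u).div_const y
    refine (h1.arctan.const_mul (m u : ℝ)).congr_deriv ?_
    field_simp
    ring

lemma ld_cont {w : ℂ} (h : 0 < w.re) (h0 : zf w ≠ 0) : ContinuousAt ld w := by
  have h1 : AnalyticAt ℂ zf w := zf_differentiableOn.analyticAt
    ((isOpen_lt continuous_const continuous_re).mem_nhds h)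
  exact h1.deriv.continuousAt.div h1.continuousAt h0

end PARG

open PARG in
theorem arg : CmpStmt → SegStmt → ArgStmt := by
  intro cmp seg C hC
  filter_upwards [eventually_ge_atTop (14 : ℝ),
    Real.tendsto_log_atTop.eventually_ge_atTop 4] with T hT hL U m Z ab y x h0 h4 hy hy1 hx
  set L := Real.log T with hLdef
  set a := ab / L with ha
  have hL0 : 0 < L := by linarith
  have a0 : 0 < a := div_pos h0 hL0
  have a1 : a ≤ 1 := (div_le_one hL0).2 (h4.trans hL)
  have haL : a * L = ab := div_mul_cancel₀ _ hL0.ne'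
  obtain ⟨hx1, hx2⟩ := abs_le.1 hx
  have e : ∀ s : ℝ, (x - y * I + s * (x - y * I + a - (x - y * I)) : ℂ) =
      (x + s * a : ℝ) - y * I := fun s => by push_cast; ring
  have sa : ∀ s : ℝ, 0 ≤ s → s ≤ 1 → 0 ≤ s * a ∧ s * a ≤ 1 := fun s s0 s1 =>
    ⟨mul_nonneg s0 a0.le, mul_le_one₀ s1 a0.le a1⟩
  have nz : ∀ s : ℝ, 0 ≤ s → s ≤ 1 → zf ((x + s * a : ℝ) - y * I) ≠ 0 := by
    intro s s0 s1 h
    obtain ⟨b0, b1⟩ := sa s s0 s1
    obtain ⟨u, -, hu⟩ := (Z.zeros _ (by
      rw [abs_le]; constructor <;> simp <;> linarith)).1 h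
    have := congrArg Complex.im hu
    simp at this
    exact hy.ne' this
  have hJ := (seg (x - y * I) (x - y * I + a) (by simp; linarith) (by simp; linarith)
    fun s s0 s1 => by rw [e]; exact nz s s0 s1).1
  simp only [e] at hJ
  simp only [add_sub_cancel_left] at hJ
  set J := ∫ s in (0 : ℝ)..1, ld ((x + s * a : ℝ) - y * I) * a with hJdef
  have w0 : zf (x - y * I) ≠ 0 := by simpa using nz 0 le_rfl zero_le_one
  have hB : Bq a (x - y * I) = exp (-J) := by
    rw [Bq, hJ, exp_neg]
    field_simp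
  have hint : IntervalIntegrable (fun s : ℝ => ld ((x + s * a : ℝ) - y * I) * a) volume 0 1 := by
    refine ContinuousOn.intervalIntegrable fun s hs => ?_
    rw [Set.uIcc_of_le zero_le_one] at hs
    refine (ContinuousAt.mul (ContinuousAt.comp (f := fun s : ℝ => ((x + s * a : ℝ) - y * I : ℂ))
      (ld_cont ?_ (nz s hs.1 hs.2)) (by fun_prop)) continuousAt_const).continuousWithinAt
    have := sa s hs.1 hs.2
    simp
    linarith
  obtain ⟨κ, -, hκ, hloc⟩ := Z.loc x hx
  have hd : |J.im - ∑ u ∈ U, (m u : ℝ) * ang a y x u + ab / 2| ≤ 2 * C * a := by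
    have i1 := (imCLM.intervalIntegral_comp_comm hint).symm
    have i2 : IntervalIntegrable (fun s : ℝ => (ld ((x + s * a : ℝ) - y * I) * a).im) volume 0 1 :=
      ⟨hint.1.im, hint.2.im⟩
    have i3 := (fs_cont U m a x hy).intervalIntegrable (μ := volume) 0 1
    simp only [imCLM_apply] at i1
    have i4 : ab / 2 = ∫ _ in (0 : ℝ)..1, ab / 2 := by simp
    rw [hJdef, i1, ← fs_int U m a x hy, ← intervalIntegral.integral_sub i2 i3, i4,
      ← intervalIntegral.integral_add (i2.sub i3) intervalIntegrable_const, ← Real.norm_eq_abs]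
    refine (intervalIntegral.norm_integral_le_of_norm_le_const (C := 2 * C * a)
      fun s hs => ?_).trans (by simp)
    rw [Set.uIoc_of_le zero_le_one] at hs
    obtain ⟨b0, b1⟩ := sa s hs.1.le hs.2
    have n1 : ‖((x + s * a : ℝ) - y * I - x : ℂ)‖ ≤ 2 := by
      refine (norm_le_abs_re_add_abs_im _).trans ?_
      simp only [sub_re, ofReal_re, mul_re, I_re, mul_zero, ofReal_im, I_im, mul_one, sub_self,
        sub_zero, add_sub_cancel_left, sub_im, mul_im, add_zero, zero_sub, abs_neg]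
      rw [abs_of_nonneg b0, abs_of_pos hy]
      linarith
    have n2 := hloc ((x + s * a : ℝ) - y * I)
      (n1.trans (Real.le_sqrt_of_sq_le (by linarith))) (by simpa using hy)
    have n3 : L / T * 2 ≤ 1 := by
      have := Real.log_le_sub_one_of_pos (show 0 < T / 4 by linarith)
      rw [Real.log_div (by linarith) (by norm_num), show (4 : ℝ) = 2 ^ 2 by norm_num,
        Real.log_pow] at this
      have := Real.log_two_lt_d9
      rw [div_mul_eq_mul_div, div_le_one (by linarith)]
      push_cast at *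
      linarith
    have n4 : C * L / T * ‖((x + s * a : ℝ) - y * I - x : ℂ)‖ ≤ C := by
      have : 0 ≤ L / T := by positivity
      rw [mul_div_assoc, mul_assoc]
      exact mul_le_of_le_one_right (by linarith)
        ((mul_le_mul_of_nonneg_left n1 this).trans n3)
    have n5 := (abs_im_le_norm _).trans (n2.trans n4)
    rw [sub_im, sub_im, (cmp U m (x + s * a) y hy).1] at n5
    rw [im_mul_ofReal, Real.norm_eq_abs, ← haL,
      show ∀ p q : ℝ, p * a - q * a + a * L / 2 = (p - q - κ.im + (κ.im + L / 2)) * a from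
        fun p q => by ring, abs_mul, abs_of_pos a0]
    exact mul_le_mul_of_nonneg_right ((abs_add_le _ _).trans (by linarith)) a0.le
  have hs := sin_le (d := -(J.im - ∑ u ∈ U, (m u : ℝ) * ang a y x u + ab / 2))
    (Finset.sum_nonneg fun u _ => mul_nonneg (Nat.cast_nonneg (m u)) (ang_nonneg a0.le hy x u))
    (total_le U m hy x Z.pos) (beta_nonneg U m a0.le hy x)
  have h8 : 2 * C * a ≤ 8 * C / L := by
    rw [ha, ← mul_div_assoc]
    exact div_le_div_of_nonneg_right (by nlinarith) hL0.le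
  rw [abs_neg] at hs
  rw [hB, ← exp_add, exp_im, norm_exp]
  have r1 : (-I * (ab / 2 : ℝ) + -J : ℂ).re = (-J).re := by simp
  have r2 : (-I * (ab / 2 : ℝ) + -J : ℂ).im =
      -(J.im - ∑ u ∈ U, (m u : ℝ) * ang a y x u + ab / 2) - ∑ u ∈ U, (m u : ℝ) * ang a y x u := by
    simp
    ring
  rw [r1, r2]
  exact mul_le_mul_of_nonneg_left (hs.trans (by linarith)) (Real.exp_pos _).le

end Pool.Agent.MP_ca0a54_nt.H1
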