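import Pool.Agent.MP_ca0a54_nt.H29.Spec
import Pool.Agent.MP_ca0a54_nt.H69.GKLB
import Pool.Agent.MP_ca0a54_nt.H22.SF
import Pool.Agent.MP_ca0a54_nt.H91.SC

/-!
Row SEL: the Poisson sum over the zeros is bounded by a short Dirichlet polynomial.
-/

open Complex MeasureTheory Filter Topology

namespace Pool.Agent.MP_ca0a54_nt.H1

open Pool.Agent.MP_ca0a54_nt.L0 Pool.Agent.MP_ca0a54_nt.H24 Pool.Agent.MP_ca0a54_nt.H29
  Pool.Agent.MP_ca0a54_nt.H69

lemma sel_dc {κ : ℂ} {B : ℝ} (hκ : ‖κ‖ ≤ B) (hB : 4 ≤ B) (n : ℕ) (_ : n ≠ 0) :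
    ‖H22.dc κ n‖ ≤ B * Real.exp (1 / 4 * Real.log n) := by
  by_cases h : n = 1
  · subst h
    simpa [H22.dc] using hκ
  · have h0 : 0 ≤ Real.log n := Real.log_natCast_nonneg n
    have h1 : ‖H22.dc κ n‖ = ArithmeticFunction.vonMangoldt n := by
      simp [H22.dc, h, abs_of_nonneg ArithmeticFunction.vonMangoldt_nonneg]
    have h2 : ArithmeticFunction.vonMangoldt n ≤ Real.log n :=
      ArithmeticFunction.vonMangoldt_le_log
    have h3 := Real.add_one_le_exp (1 / 4 * Real.log n)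
    rw [h1]
    nlinarith [Real.exp_pos (1 / 4 * Real.log n)]

lemma sel_rs (U : Finset ℝ) (m : ℝ → ℕ) {z : ℂ} (hz : z.im = -1) :
    ‖rs U m z‖ ≤ ∑ u ∈ U, (m u : ℝ) := by
  unfold rs rat
  rw [ofReal_zero, zero_add]
  refine norm_sum_le_of_le _ fun u _ => ?_
  have h1 : 1 ≤ ‖z - (u : ℂ)‖ := by simpa [hz] using abs_im_le_norm (z - u)
  rw [norm_div, norm_real, Real.norm_eq_abs, abs_of_nonneg (Nat.cast_nonneg _)]
  exact div_le_self (Nat.cast_nonneg _) h1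

lemma sel_zero {ξ : ℝ} {k : ℂ → ℂ} (hk : Ker ξ ξ k) (hξ : 16 ≤ ξ) (U : Finset ℝ) (m : ℝ → ℕ)
    (x : ℝ) : ‖∑ u ∈ U, ((m u : ℝ) : ℂ) * 1 * (k ((u : ℂ) - (x - (4 / ξ : ℝ) * I)) /
      ((u : ℂ) - (x - (4 / ξ : ℝ) * I)))‖ ≤ Fs U m x (4 / ξ) / 2 := by
  have hξ0 : 0 < ξ := by linarith
  obtain ⟨y, hy⟩ : ∃ y : ℝ, y = 4 / ξ := ⟨_, rfl⟩
  rw [← hy]
  have h0 : ξ * y = 4 := by
    rw [hy]
    field_simp
  have hy0 : 0 < y := hy ▸ div_pos (by norm_num) hξ0
  have hy1 : y ≤ 1 := by nlinarith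
  unfold Fs
  rw [Finset.sum_div]
  refine norm_sum_le_of_le _ fun u _ => ?_
  have h1 := hk.b2 ((u : ℂ) - (x - y * I))
  have h2 : ((u : ℂ) - (x - y * I)).im = y := by simp
  have h3 := H22.km_le ξ x y u hξ0
  have h4 : mx ξ ξ y ≤ Real.exp (-4) := mx_le (by linarith) (by linarith)
  have h5 : Real.exp (y ^ 2) * Real.exp (-4) ≤ 1 := by
    rw [← Real.exp_add]
    exact Real.exp_le_one_iff.2 (by nlinarith)
  have h6 : 1 / ξ = y / 4 := by
    rw [hy]
    ring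
  have h7 : 0 ≤ km ξ ((u : ℂ) - (x - y * I)) := by
    unfold km
    positivity
  have h8 := mx_pos ξ ξ y
  rw [h2] at h1
  rw [h6] at h3
  rw [mul_one, norm_mul, norm_real, Real.norm_eq_abs, abs_of_nonneg (Nat.cast_nonneg _),
    mul_div_assoc]
  refine mul_le_mul_of_nonneg_left (h1.trans ?_) (Nat.cast_nonneg _)
  calc _ ≤ 2 * Real.exp (y ^ 2) * Real.exp (-4) * (y / 4 * (1 / ((x - u) ^ 2 + y ^ 2))) := by
        gcongr
    _ = (Real.exp (y ^ 2) * Real.exp (-4)) * (y / ((x - u) ^ 2 + y ^ 2) / 2) := by ring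
    _ ≤ _ := mul_le_of_le_one_left (by positivity) h5

lemma sel_id {ξ : ℝ} {k : ℂ → ℂ} (hk : Ker ξ ξ k) (U : Finset ℝ) (m : ℝ → ℕ) {D : ℂ → ℂ}
    (κ : ℂ) (N : ℕ) (hN : 1 ≤ N) {w : ℂ} {y : ℝ} (hD : Bd D (-8) (-1)) (hw : w.im < 0)
    (hy : y < 0) (hy2 : -1 ≤ w.im + y) :
    2 * Real.pi * I * (rs U m w + ∑ u ∈ U, ((m u : ℝ) : ℂ) * 1 * (k (u - w) / (u - w)) -
      dp (fun n => (ArithmeticFunction.vonMangoldt n : ℝ) *
        ((2 * Real.pi * I)⁻¹ * (-I * J k 0 (fun ζ => np (0 + I * ζ) n) y))) N w) =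
    J k w (fun z => rs U m z - D z) (-1 : ℝ) +
      J k w (fun z => D z - dp (H22.dc κ) N z) (-8 : ℝ) -
      κ * J k 0 (fun ζ => np (0 + I * ζ) 1) y - J k w (rs U m) (1 : ℝ) := by
  have h1 : -1 < w.im := by linarith
  have i1 := rat_id hk H91.pole (c₀ := 0) (U := U) (ρ := fun u => (m u : ℝ)) (v := fun u => u)
    (w := w) (Bd.const 1 (-1) 1) (abs_lt.2 ⟨h1, by linarith⟩) hw.ne
  have hD' : Bd D (-1) (-1) := hD.mono (by norm_num) le_rfl
  have b1 : Bd (fun z => rs U m z - D z) (-1) (-1) :=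
    (Bd.rat (γ := -1) (by norm_num) 0 U _ _).sub hD'
  have b2 := hD'.sub (Bd.dp (H22.dc κ) N _ _)
  have i2 : J k w (rs U m) (-1 : ℝ) = J k w (fun z => rs U m z - D z) (-1 : ℝ) +
      J k w (fun z => D z - dp (H22.dc κ) N z) (-1 : ℝ) + J k w (dp (H22.dc κ) N) (-1 : ℝ) := by
    rw [← J_add hk b1 b2 h1.ne', ← J_add hk (b1.add b2) (Bd.dp _ N _ _) h1.ne']
    congr 1
    ext z
    ring
  have i5 := J_shift hk (w := w) H91.shift (hD.sub (Bd.dp (H22.dc κ) N _ _)) (by norm_num)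
    (Or.inr h1)
  have i7 := J_shift hk (w := w) H91.shift (Bd.dp (H22.dc κ) N (-1) (w.im + y)) hy2
    (Or.inr (by linarith))
  have i8 : J k w (dp (H22.dc κ) N) (w.im + y) = _ :=
    J_ds hk (H22.dc κ) (Finset.Icc 1 N) w hy.ne
  have i9 : ds (fun n => H22.dc κ n * J k 0 (fun ζ => np (0 + I * ζ) n) y) (Finset.Icc 1 N) w =
      2 * Real.pi * I * dp (fun n => (ArithmeticFunction.vonMangoldt n : ℝ) *
        ((2 * Real.pi * I)⁻¹ * (-I * J k 0 (fun ζ => np (0 + I * ζ) n) y))) N w -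
      κ * J k 0 (fun ζ => np (0 + I * ζ) 1) y := by
    have hpi : (2 * Real.pi * I : ℂ) ≠ 0 := two_pi_I_ne_zero
    have h2 : κ * J k 0 (fun ζ => np (0 + I * ζ) 1) y = ∑ n ∈ Finset.Icc 1 N,
        (if n = 1 then κ else 0) * J k 0 (fun ζ => np (0 + I * ζ) n) y *
          np (1 / 2 + I * w) n := by
      rw [Finset.sum_eq_single 1]
      · rw [if_pos rfl, H22.np_one (1 / 2 + I * w), mul_one]
      · intro n _ hn
        rw [if_neg hn, zero_mul, zero_mul]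
      · intro h
        exact absurd (Finset.mem_Icc.2 ⟨le_rfl, hN⟩) h
    rw [h2]
    unfold dp ds
    rw [Finset.mul_sum, ← Finset.sum_sub_distrib]
    refine Finset.sum_congr rfl fun n _ => ?_
    unfold H22.dc
    field_simp
  simp only [mul_one] at i1
  simp only [mul_one]
  change J k w (rs U m) _ - J k w (rs U m) _ = _ * (rs U m w + _) at i1
  linear_combination -i1 + i2 - i5 + i7 + i8 + i9

lemma sel_line {C T Z₀ x : ℝ} {U : Finset ℝ} {m : ℝ → ℕ} {κ : ℂ} (hC : 1 ≤ C) (hZ : 1 ≤ Z₀)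
    (hT : 2 ≤ T) (hL : 0 ≤ Real.log T) (hs : 16 * Real.log T / T ≤ 1)
    (hc : ∑ u ∈ U, (m u : ℝ) ≤ C * T * Real.log T)
    (hl : ∀ w : ℂ, ‖w - x‖ ≤ √T → w.im < 0 →
      ‖ld w - rs U m w - κ‖ ≤ C * Real.log T / T * ‖w - x‖) {z : ℂ} (hz : z.im = -1)
    (hD : ‖ld z - κ‖ ≤ 5 * C * Real.log T * Z₀) :
    ‖rs U m z - (ld z - κ)‖ ≤ 6 * C * Z₀ * Real.log T * Real.exp (-Real.log T) *
      Real.exp ((z.re - x) ^ 2 / 4) := by
  have hT0 : 0 < T := by linarith
  have hE := Real.add_one_le_exp ((z.re - x) ^ 2 / 4)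
  rw [Real.exp_neg, Real.exp_log hT0]
  by_cases h : ‖z - x‖ ≤ √T
  · have h1 := hl z h (by linarith)
    have h2 : ‖z - x‖ ≤ 2 * Real.exp ((z.re - x) ^ 2 / 4) := by
      have h3 := norm_le_abs_re_add_abs_im (z - x)
      simp only [sub_re, ofReal_re, sub_im, ofReal_im, hz, sub_zero, abs_neg, abs_one] at h3
      nlinarith [sq_abs (z.re - x), sq_nonneg (|z.re - x| - 1)]
    have h4 : rs U m z - (ld z - κ) = -(ld z - rs U m z - κ) := by ring
    rw [h4, norm_neg]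
    calc _ ≤ C * Real.log T / T * (2 * Real.exp ((z.re - x) ^ 2 / 4)) :=
          h1.trans (mul_le_mul_of_nonneg_left h2 (by positivity))
      _ = 2 * C * 1 * Real.log T * T⁻¹ * Real.exp ((z.re - x) ^ 2 / 4) := by ring
      _ ≤ _ := by gcongr; norm_num
  · have h1 : T < ‖z - x‖ ^ 2 := Real.lt_sq_of_sqrt_lt (not_le.1 h)
    have h2 : ‖z - x‖ ^ 2 = (z.re - x) ^ 2 + 1 := by
      rw [Complex.sq_norm, Complex.normSq_apply]
      simp [hz]
      ring
    have h3 : T * T ≤ Real.exp ((z.re - x) ^ 2 / 4) := by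
      rw [div_le_one hT0] at hs
      rw [← Real.exp_log hT0, ← Real.exp_add]
      exact Real.exp_le_exp.2 (by linarith)
    have h4 : ‖rs U m z - (ld z - κ)‖ ≤ C * T * Real.log T + 5 * C * Real.log T * Z₀ :=
      (norm_sub_le _ _).trans (add_le_add ((sel_rs U m hz).trans hc) hD)
    calc _ ≤ C * T * Real.log T * 1 + 5 * C * Real.log T * Z₀ * 1 := by linarith
      _ ≤ C * T * Real.log T * Z₀ + 5 * C * Real.log T * Z₀ * T := by gcongr; linarith
      _ = 6 * C * Z₀ * Real.log T * T⁻¹ * (T * T) := by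
          field_simp
          ring
      _ ≤ _ := by gcongr

theorem sel : CmpStmt → SelStmt := by
  intro hcmp C hC
  have hα : (1 : ℝ) < 9 / 8 := by norm_num
  have hZ := Z_ge hα
  have hG : 1 ≤ Real.exp (8 ^ 2) := Real.one_le_exp (by norm_num)
  have hK : 0 ≤ 24 * Real.exp (8 ^ 2) * (22 * C * Z (9 / 8)) := by positivity
  refine ⟨2 * (24 * Real.exp (8 ^ 2) * (22 * C * Z (9 / 8)) + 192 * C), by linarith, ?_⟩
  filter_upwards [H22.ev_log 1, H22.ev_small 16 (by norm_num), eventually_ge_atTop (2 : ℝ)]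
    with T hL hs hT
  intro ξ hξ hξL
  have hξ0 : 0 < ξ := by linarith
  obtain ⟨k, k1, k2, k3, k4⟩ := H91.ker ξ ξ hξ0
  have hk : Ker ξ ξ k := ⟨k1, k2, k3, k4⟩
  have hJ : ∀ n : ℕ, ‖J k 0 (fun ζ => np (0 + I * ζ) n) (-1 / (2 * ξ))‖ ≤ 192 := by
    intro n
    have h1 := chi_le H91.kmInt hk hξ0 (L := 2 * ξ) (by linarith) (by linarith) n
    have h2 : 1 + 2 * ξ / ξ = 3 := by
      field_simp
      norm_num
    have h3 := Real.log_le_sub_one_of_pos (show (0 : ℝ) < 3 by norm_num)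
    rw [h2] at h1
    linarith
  have hpi : 1 ≤ ‖(2 * Real.pi * I : ℂ)‖ := by
    simp [abs_of_pos Real.pi_pos]
    linarith [Real.pi_gt_three]
  refine ⟨fun n => (2 * Real.pi * I)⁻¹ * (-I * J k 0 (fun ζ => np (0 + I * ζ) n) (-1 / (2 * ξ))),
    fun n => ?_, fun U m hU x hx => ?_⟩
  · rw [norm_mul, norm_mul, norm_neg, norm_I, one_mul, norm_inv]
    refine (mul_le_of_le_one_left (norm_nonneg _) (inv_le_one_of_one_le₀ hpi)).trans ?_
    linarith [hJ n]
  obtain ⟨κ, hκ, -, hl⟩ := hU.loc x hx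
  have hS := sel_zero hk hξ U m x
  obtain ⟨y, hy⟩ : ∃ y : ℝ, y = 4 / ξ := ⟨_, rfl⟩
  rw [← hy] at hS ⊢
  have h0 : ξ * y = 4 := by
    rw [hy]
    field_simp
  have hy0 : 0 < y := hy ▸ div_pos (by norm_num) hξ0
  have hy1 : y ≤ 1 / 4 := by nlinarith
  have hF := (hcmp U m x y hy0).1
  have hx1 : 1 ≤ Real.exp (4 * ξ) := Real.one_le_exp (by linarith)
  have hN1 : 1 ≤ ⌊Real.exp (4 * ξ)⌋₊ := Nat.le_floor (by simpa using hx1)
  have hN2 : 4 * ξ - 1 ≤ Real.log (⌊Real.exp (4 * ξ)⌋₊ : ℝ) := by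
    have h1 := Nat.lt_floor_add_one (Real.exp (4 * ξ))
    have h2 : (1 : ℝ) ≤ (⌊Real.exp (4 * ξ)⌋₊ : ℝ) := by exact_mod_cast hN1
    have h3 := Real.log_le_log (x := Real.exp (4 * ξ) / 2) (y := ⌊Real.exp (4 * ξ)⌋₊)
      (by linarith) (by linarith)
    rw [Real.log_div (by linarith) (by norm_num), Real.log_exp] at h3
    linarith [Real.log_two_lt_d9]
  generalize ⌊Real.exp (4 * ξ)⌋₊ = N at hN1 hN2 ⊢
  have hCL : 1 ≤ C * Real.log T := one_le_mul_of_one_le_of_one_le hC hL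
  have hB : 0 ≤ 5 * C * Real.log T := by positivity
  have hd := sel_dc (κ := κ) (B := 5 * C * Real.log T) (by linarith) (by linarith)
  have hac : (1 / 4 : ℝ) + 9 / 8 < 1 / 2 + 1 := by norm_num
  have him : ((x : ℂ) - y * I).im = -y := by simp
  have hre : ((x : ℂ) - y * I).re = x := by simp
  have hy2 : -1 / (2 * ξ) < 0 := div_neg_of_neg_of_pos (by norm_num) (by linarith)
  have hy3 : -(1 / 4) ≤ -1 / (2 * ξ) := by
    rw [le_div_iff₀ (by linarith)]
    linarith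
  have hid := sel_id hk U m κ N hN1 (w := x - y * I) (Bd.DD hα hd hB hac (-8))
    (by rw [him]; linarith) hy2 (by rw [him]; linarith)
  have happ : ∀ z : ℂ, z.im = -1 → ‖rs U m z - DD (H22.dc κ) z‖ ≤
      6 * C * Z (9 / 8) * Real.log T * Real.exp (-Real.log T) *
        Real.exp ((z.re - x) ^ 2 / 4) := by
    intro z hz
    have h1 := DD_le hα hd hB hac hz.le
    have h2 : DD (H22.dc κ) z = ld z - κ := H22.lseries_dc κ z (by rw [hz]; norm_num)
    rw [h2] at h1 ⊢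
    exact sel_line hC hZ hT (by linarith) hs hU.card hl hz h1
  have e1 : ‖J k (x - y * I) (fun z => rs U m z - DD (H22.dc κ) z) (-1 : ℝ)‖ ≤
      24 * Real.exp (8 ^ 2) * (6 * C * Z (9 / 8) * Real.log T) * Real.exp 0 := by
    refine J_norm hk (p := -Real.log T) (q := 2 * ξ) (fun t => ?_) ?_ ?_ ?_ ?_ (by positivity)
      (by linarith)
    · simpa using happ (t + (-1 : ℝ) * I) (by simp)
    · rw [him]
      exact le_abs.2 (Or.inr (by linarith))
    · rw [him]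
      exact abs_le.2 ⟨by linarith, by linarith⟩
    · rw [him]
      linarith
    · rw [him]
      linarith
  have e2 : ‖J k (x - y * I) (fun z => DD (H22.dc κ) z - dp (H22.dc κ) N z) (-8 : ℝ)‖ ≤
      24 * Real.exp (8 ^ 2) * (5 * C * Real.log T * Z (9 / 8)) * Real.exp 0 := by
    refine J_norm hk (p := (7 / 2 - 8) * Real.log N) (q := 16 * ξ) (fun t => le_mul_exp ?_)
      ?_ ?_ ?_ ?_ (by positivity) (by linarith)
    · have h1 := tail_le (r := fun _ => 1) 1 hα (by norm_num) hd hB (by norm_num) (by simp)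
        (Γ := 8) (by norm_num) hN1 (z := t + (-8 : ℝ) * I) (by simp)
      have h2 : dp (cv (H22.dc κ) (cut (fun _ => 1) 1)) N = dp (H22.dc κ) N := by
        ext z
        unfold dp ds
        refine Finset.sum_congr rfl fun n hn => ?_
        rw [H22.cv_cut _ _ (by have := (Finset.mem_Icc.1 hn).1; omega)]
      rwa [H22.dp_one, mul_one, h2] at h1
    · rw [him]
      exact le_abs.2 (Or.inr (by linarith))
    · rw [him]
      exact abs_le.2 ⟨by linarith, by linarith⟩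
    · rw [him]
      linarith
    · rw [him]
      linarith
  have e3 : ‖κ * J k 0 (fun ζ => np (0 + I * ζ) 1) (-1 / (2 * ξ))‖ ≤ C * Real.log T * 192 := by
    rw [norm_mul]
    exact mul_le_mul hκ (hJ 1) (norm_nonneg _) (by linarith)
  have e4 : ‖J k (x - y * I) (rs U m) (1 : ℝ)‖ ≤
      24 * Real.exp (8 ^ 2) * (11 * C * Z (9 / 8) * Real.log T) * Real.exp 0 := by
    refine J_norm hk (p := 0) (q := 0) (fun t => ?_) ?_ ?_ ?_ ?_ (by positivity) (by linarith)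
    · have h1 : ‖rs U m (t + (1 : ℝ) * I)‖ = ‖rs U m (t + (-1 : ℝ) * I)‖ := by
        have h2 : (starRingEnd ℂ) ((t : ℂ) + (1 : ℝ) * I) = t + (-1 : ℝ) * I := by simp
        rw [rs, ← rat_conj, norm_conj, h2, rs]
      have h3 := happ (t + (-1 : ℝ) * I) (by simp)
      have h4 := le_mul_exp (y := t - x) (DD_le hα hd hB hac (z := t + (-1 : ℝ) * I) (by simp))
      have h5 : ((t : ℂ) + (-1 : ℝ) * I).re = t := by simp
      have h6 : Real.exp (-Real.log T) ≤ 1 := Real.exp_le_one_iff.2 (by linarith)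
      have h7 : 6 * C * Z (9 / 8) * Real.log T * Real.exp (-Real.log T) *
          Real.exp ((t - x) ^ 2 / 4) ≤
          6 * C * Z (9 / 8) * Real.log T * 1 * Real.exp ((t - x) ^ 2 / 4) := by gcongr
      have h8 := norm_le_norm_sub_add (rs U m (t + (-1 : ℝ) * I))
        (DD (H22.dc κ) (t + (-1 : ℝ) * I))
      rw [h5] at h3
      rw [h1, hre, Real.exp_zero]
      linarith
    · rw [him]
      exact le_abs.2 (Or.inl (by linarith))
    · rw [him]
      exact abs_le.2 ⟨by linarith, by linarith⟩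
    · rw [him]
      linarith
    · rw [him]
      linarith
  rw [Real.exp_zero] at e1 e2 e4
  generalize dp (fun n => ((ArithmeticFunction.vonMangoldt n : ℝ) : ℂ) * ((2 * Real.pi * I)⁻¹ *
    (-I * J k 0 (fun ζ => np (0 + I * ζ) n) (-1 / (2 * ξ))))) N (x - y * I) = P at hid ⊢
  generalize ∑ u ∈ U, ((m u : ℝ) : ℂ) * 1 * (k ((u : ℂ) - (x - y * I)) /
    ((u : ℂ) - (x - y * I))) = S at hid hS
  have h1 : ‖rs U m (x - y * I) + S - P‖ ≤
      (24 * Real.exp (8 ^ 2) * (22 * C * Z (9 / 8)) + 192 * C) * Real.log T := by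
    refine (le_mul_of_one_le_left (norm_nonneg _) hpi).trans ?_
    rw [← norm_mul, hid]
    refine ((norm_sub_le _ _).trans (add_le_add ((norm_sub_le _ _).trans
      (add_le_add ((norm_add_le _ _).trans (add_le_add e1 e2)) e3)) e4)).trans (le_of_eq ?_)
    ring
  have h2 : ‖rs U m (x - y * I)‖ ≤ ‖rs U m (x - y * I) + S - P‖ + ‖P‖ + ‖S‖ := by
    have h3 : rs U m (x - y * I) = rs U m (x - y * I) + S - P + P - S := by ring
    conv_lhs => rw [h3]
    exact (norm_sub_le _ _).trans (add_le_add (norm_add_le _ _) le_rfl)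
  have h4 : Fs U m x y ≤ ‖rs U m (x - y * I)‖ := hF ▸ im_le_norm _
  constructor <;> linarith

end Pool.Agent.MP_ca0a54_nt.H1
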