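import Pool.Agent.MP_ca0a54_nt.H24.Spec

/-!
Row RL: the Laplace transform of the diagonal coefficients, through the Euler product.
-/

open Complex Filter Topology

namespace Pool.Agent.MP_ca0a54_nt.H1

open Pool.Agent.MP_ca0a54_nt.H24

lemma np_add (u v : ℂ) (n : ℕ) : np (u + v) n = np u n * np v n := by
  unfold np
  rw [← Complex.exp_add]
  exact congrArg Complex.exp (by ring)

lemma np_zero (n : ℕ) : np 0 n = 1 := by simp [np]

lemma np_one (u : ℂ) : np u 1 = 1 := by simp [np]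

lemma np_mul (u : ℂ) {m n : ℕ} (hm : m ≠ 0) (hn : n ≠ 0) : np u (m * n) = np u m * np u n := by
  unfold np
  rw [← Complex.exp_add, Nat.cast_mul, Real.log_mul (by exact_mod_cast hm) (by exact_mod_cast hn)]
  exact congrArg Complex.exp (by push_cast; ring)

lemma np_pow (u : ℂ) (p k : ℕ) : np u (p ^ k) = np u p ^ k := by
  unfold np
  rw [← Complex.exp_nat_mul, Nat.cast_pow, Real.log_pow]
  exact congrArg Complex.exp (by push_cast; ring)

lemma norm_np (u : ℂ) (n : ℕ) : ‖np u n‖ = Real.exp (-u.re * Real.log n) := by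
  unfold np
  rw [Complex.norm_exp, Complex.re_mul_ofReal, Complex.neg_re]

lemma np_eq_cpow (u : ℂ) {n : ℕ} (hn : n ≠ 0) : np u n = (n : ℂ) ^ (-u) := by
  unfold np
  rw [Complex.cpow_def_of_ne_zero (by exact_mod_cast hn), ← Complex.natCast_log]
  exact congrArg Complex.exp (by ring)

lemma np_real (y : ℝ) (n : ℕ) : np (y : ℂ) n = (Real.exp (-y * Real.log n) : ℝ) := by
  unfold np
  rw [Complex.ofReal_exp]
  exact congrArg Complex.exp (by push_cast; ring)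

lemma conj_np (y : ℝ) (n : ℕ) : (starRingEnd ℂ) (np (y : ℂ) n) = np (y : ℂ) n := by
  rw [np_real, Complex.conj_ofReal]

lemma norm_np_le_one {u : ℂ} (hu : 0 ≤ u.re) (n : ℕ) : ‖np u n‖ ≤ 1 := by
  rw [norm_np, Real.exp_le_one_iff]
  have := Real.log_natCast_nonneg n
  nlinarith

lemma norm_np_le_inv {u : ℂ} (hu : 1 ≤ u.re) {n : ℕ} (hn : n ≠ 0) : ‖np u n‖ ≤ (n : ℝ)⁻¹ := by
  have hn' : (0 : ℝ) < n := by exact_mod_cast Nat.pos_of_ne_zero hn
  rw [norm_np, ← Real.exp_log (inv_pos.mpr hn'), Real.log_inv, Real.exp_le_exp]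
  have := Real.log_natCast_nonneg n
  nlinarith

lemma norm_np_le_half {u : ℂ} (hu : 1 ≤ u.re) {p : ℕ} (hp : p.Prime) : ‖np u p‖ ≤ 1 / 2 := by
  refine (norm_np_le_inv hu hp.ne_zero).trans ?_
  have h2 : (2 : ℝ) ≤ p := by exact_mod_cast hp.two_le
  rw [one_div]
  exact inv_anti₀ (by norm_num) h2

lemma half_le_norm {w : ℂ} (hw : ‖w‖ ≤ 1 / 2) : 1 / 2 ≤ ‖1 - w‖ := by
  have := norm_sub_norm_le (1 : ℂ) w
  rw [norm_one] at this
  linarith

lemma one_sub_ne {w : ℂ} (hw : ‖w‖ ≤ 1 / 2) : 1 - w ≠ 0 := by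
  intro h
  have := half_le_norm hw
  rw [h, norm_zero] at this
  norm_num at this

/-- The summand. -/
noncomputable def fn (y a σ : ℝ) (n : ℕ) : ℂ :=
  rc (y : ℂ) (I * a) n * (starRingEnd ℂ) (rc (y : ℂ) 0 n) * np ((1 + σ : ℝ) : ℂ) n

/-- The relative error of the local factor. -/
noncomputable def ep (y a σ : ℝ) (p : ℕ) : ℂ :=
  -(np ((1 + σ : ℝ) : ℂ) p ^ 2 * np (I * a) p * (np y p - np (I * a) p) * (np y p - 1)) /
    ((1 - np ((1 + σ : ℝ) : ℂ) p * np y p) * (1 - np ((1 + σ : ℝ) : ℂ) p * np y p * np (I * a) p))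

lemma norm_npI (a : ℝ) (n : ℕ) : ‖np (I * a) n‖ = 1 := by
  rw [norm_np]
  simp

lemma fn_summable (h : Ar1Stmt) {y σ : ℝ} (a : ℝ) (hy : 0 ≤ y) (hσ : 0 < σ) :
    Summable fun n => ‖fn y a σ n‖ := by
  obtain ⟨-, -, h3, h4, h5, -⟩ := h
  have hs := (h3 (y : ℂ) (I * a) ((1 + σ : ℝ) : ℂ) (by simp; linarith) (by simp; linarith)).1
  refine Summable.of_nonneg_of_le (fun n => norm_nonneg _) (fun n => ?_) (summable_norm_iff.mpr hs)
  rcases eq_or_ne n 0 with rfl | hn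
  · simp [fn, (h4 _ _).1]
  · rw [LSeries.term_of_ne_zero hn, div_eq_mul_inv, ← Complex.cpow_neg, ← np_eq_cpow _ hn, fn,
      norm_mul, norm_mul, norm_mul, Complex.norm_conj]
    have h1 : ‖rc (y : ℂ) 0 n‖ ≤ 1 := (h5 y n hy).1.trans (h5 y n hy).2.1
    have h2 := norm_nonneg (rc (y : ℂ) (I * a) n)
    have h6 := norm_nonneg (np ((1 + σ : ℝ) : ℂ) n)
    exact mul_le_mul_of_nonneg_right (mul_le_of_le_one_right h2 h1) h6

lemma fn_local (h : Ar1Stmt) {y σ : ℝ} (a : ℝ) (hy : 0 ≤ y) (hσ : 0 < σ) {p : ℕ} (hp : p.Prime) :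
    ∑' k : ℕ, fn y a σ (p ^ k) = 1 + (np y p - np (I * a) p) * (np y p - 1) *
      np ((1 + σ : ℝ) : ℂ) p * (1 - np ((1 + σ : ℝ) : ℂ) p * np y p ^ 2)⁻¹ := by
  obtain ⟨-, -, -, h4, -⟩ := h
  have hX : ‖np ((1 + σ : ℝ) : ℂ) p‖ ≤ 1 / 2 := norm_np_le_half (by simp; linarith) hp
  have hx : ‖np (y : ℂ) p‖ ≤ 1 := norm_np_le_one (by simpa using hy) p
  have hq : ‖np ((1 + σ : ℝ) : ℂ) p * np y p ^ 2‖ < 1 := by
    rw [norm_mul, norm_pow]
    have := pow_le_one₀ (n := 2) (norm_nonneg _) hx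
    have := mul_le_of_le_one_right (norm_nonneg (np ((1 + σ : ℝ) : ℂ) p)) this
    linarith
  have hk : ∀ k : ℕ, fn y a σ (p ^ (k + 1)) = (np y p - np (I * a) p) * (np y p - 1) *
      np ((1 + σ : ℝ) : ℂ) p * (np ((1 + σ : ℝ) : ℂ) p * np y p ^ 2) ^ k := by
    intro k
    rw [fn, (h4 _ _).2.2.2 p k hp, (h4 _ _).2.2.2 p k hp, np_pow, np_zero, map_mul, map_pow,
      map_sub, conj_np, map_one]
    ring
  have hs : HasSum (fun k : ℕ => fn y a σ (p ^ (k + 1))) ((np y p - np (I * a) p) * (np y p - 1) *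
      np ((1 + σ : ℝ) : ℂ) p * (1 - np ((1 + σ : ℝ) : ℂ) p * np y p ^ 2)⁻¹) := by
    simp only [hk]
    exact (hasSum_geometric_of_norm_lt_one hq).mul_left _
  have h0 : fn y a σ (p ^ 0) = 1 := by
    rw [pow_zero, fn, (h4 _ _).2.1, (h4 _ _).2.1, np_one]
    simp
  have := (hasSum_nat_add_iff (f := fun k : ℕ => fn y a σ (p ^ k)) 1).mp hs
  rw [this.tsum_eq, Finset.sum_range_one, h0, add_comm]

lemma local_identity {X x z : ℂ} (h1 : 1 - X * x ^ 2 ≠ 0) (h2 : 1 - X * z ≠ 0)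
    (h3 : 1 - X * x ≠ 0) (h4 : 1 - X * x * z ≠ 0) :
    (1 + (x - z) * (x - 1) * X * (1 - X * x ^ 2)⁻¹) * (1 - X * x)⁻¹ * (1 - X * x * z)⁻¹ =
      (1 - X * x ^ 2)⁻¹ * (1 - X * z)⁻¹ *
        (1 + -(X ^ 2 * z * (x - z) * (x - 1)) / ((1 - X * x) * (1 - X * x * z))) := by
  have key : ((1 - X * x ^ 2) + (x - z) * (x - 1) * X) * (1 - X * z) =
      (1 - X * x) * (1 - X * x * z) + -(X ^ 2 * z * (x - z) * (x - 1)) := by ring
  generalize (x - z) * (x - 1) * X = N at key ⊢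
  generalize -(X ^ 2 * z * (x - z) * (x - 1)) = M at key ⊢
  generalize 1 - X * x ^ 2 = A at key h1 ⊢
  generalize 1 - X * z = B at key h2 ⊢
  generalize 1 - X * x * z = D at key h4 ⊢
  generalize 1 - X * x = C at key h3 ⊢
  field_simp
  linear_combination key

lemma norm_ep_le {y σ : ℝ} (a : ℝ) (hy : 0 ≤ y) (hσ : 0 < σ) {p : ℕ} (hp : p.Prime) :
    ‖ep y a σ p‖ ≤ 8 * ((p : ℝ)⁻¹) ^ 2 * ‖np (y : ℂ) p - 1‖ := by
  have hX : ‖np ((1 + σ : ℝ) : ℂ) p‖ ≤ 1 / 2 := norm_np_le_half (by simp; linarith) hp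
  have hX' : ‖np ((1 + σ : ℝ) : ℂ) p‖ ≤ (p : ℝ)⁻¹ :=
    norm_np_le_inv (by simp; linarith) hp.ne_zero
  have hx : ‖np (y : ℂ) p‖ ≤ 1 := norm_np_le_one (by simpa using hy) p
  have hz := norm_npI a p
  have hXx : ‖np ((1 + σ : ℝ) : ℂ) p * np y p‖ ≤ 1 / 2 := by
    rw [norm_mul]
    exact (mul_le_of_le_one_right (norm_nonneg _) hx).trans hX
  have hXxz : ‖np ((1 + σ : ℝ) : ℂ) p * np y p * np (I * a) p‖ ≤ 1 / 2 := by
    rw [norm_mul, hz, mul_one]
    exact hXx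
  have hd1 := half_le_norm hXx
  have hd2 := half_le_norm hXxz
  have hxz : ‖np (y : ℂ) p - np (I * a) p‖ ≤ 2 := by
    have := norm_sub_le (np (y : ℂ) p) (np (I * a) p)
    linarith
  have hd : 1 / 2 * (1 / 2) ≤ ‖1 - np ((1 + σ : ℝ) : ℂ) p * np y p‖ *
      ‖1 - np ((1 + σ : ℝ) : ℂ) p * np y p * np (I * a) p‖ :=
    mul_le_mul hd1 hd2 (by norm_num) (norm_nonneg _)
  have hn : ‖np ((1 + σ : ℝ) : ℂ) p‖ ^ 2 * ‖np (y : ℂ) p - np (I * a) p‖ * ‖np (y : ℂ) p - 1‖ ≤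
      ((p : ℝ)⁻¹) ^ 2 * 2 * ‖np (y : ℂ) p - 1‖ :=
    mul_le_mul_of_nonneg_right (mul_le_mul (pow_le_pow_left₀ (norm_nonneg _) hX' 2) hxz
      (norm_nonneg _) (by positivity)) (norm_nonneg _)
  rw [ep, norm_div, norm_neg, norm_mul, norm_mul, norm_mul, norm_mul, norm_pow, hz, mul_one]
  refine (div_le_div₀ (by positivity) hn (by norm_num) hd).trans (le_of_eq ?_)
  ring

lemma summable_bound : Summable fun p : Nat.Primes => 16 * (((p : ℕ) : ℝ)⁻¹) ^ 2 := by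
  have h : Summable fun n : ℕ => 16 * ((n : ℝ)⁻¹) ^ 2 := by
    refine Summable.mul_left _ ?_
    simpa only [inv_pow] using Real.summable_nat_pow_inv.mpr (by norm_num : 1 < 2)
  exact h.comp_injective Subtype.val_injective

lemma norm_ep_le' {y σ : ℝ} (a : ℝ) (hy : 0 ≤ y) (hσ : 0 < σ) {p : ℕ} (hp : p.Prime) :
    ‖ep y a σ p‖ ≤ 16 * ((p : ℝ)⁻¹) ^ 2 := by
  refine (norm_ep_le a hy hσ hp).trans ?_
  have hx : ‖np (y : ℂ) p‖ ≤ 1 := norm_np_le_one (by simpa using hy) p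
  have h1 : ‖np (y : ℂ) p - 1‖ ≤ 2 := by
    have := norm_sub_le (np (y : ℂ) p) 1
    rw [norm_one] at this
    linarith
  have h2 : (0 : ℝ) ≤ ((p : ℝ)⁻¹) ^ 2 := by positivity
  nlinarith

lemma zeta_hasProd {w : ℂ} (hw : 1 < w.re) :
    HasProd (fun p : Nat.Primes => (1 - np w p)⁻¹) (riemannZeta w) := by
  have h := riemannZeta_eulerProduct_hasProd hw
  have e : (fun p : Nat.Primes => (1 - np w p)⁻¹) =
      fun p : Nat.Primes => (1 - ((p : ℕ) : ℂ) ^ (-w))⁻¹ := by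
    funext p
    rw [np_eq_cpow w p.2.ne_zero]
  rw [e]
  exact h

lemma euler (h : Ar1Stmt) {y σ : ℝ} (a : ℝ) (hy : 0 ≤ y) (hσ : 0 < σ) :
    (∑' n : ℕ, fn y a σ n) * riemannZeta ((1 + σ : ℝ) + y) *
        riemannZeta ((1 + σ : ℝ) + y + I * a) =
      riemannZeta ((1 + σ : ℝ) + y + y) * riemannZeta ((1 + σ : ℝ) + I * a) *
        ∏' p : Nat.Primes, (1 + ep y a σ p) := by
  have h4 := h.2.2.2.1
  have hF := EulerProduct.eulerProduct_hasProd (f := fn y a σ)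
    (by rw [fn, (h4 _ _).2.1, (h4 _ _).2.1, np_one]; simp)
    (fun {m n} hmn => by
      rcases eq_or_ne m 0 with rfl | hm
      · simp [fn, (h4 _ _).1]
      rcases eq_or_ne n 0 with rfl | hn
      · simp [fn, (h4 _ _).1]
      rw [fn, fn, fn, (h4 _ _).2.2.1 m n hmn, (h4 _ _).2.2.1 m n hmn, np_mul _ hm hn, map_mul]
      ring)
    (fn_summable h a hy hσ) (by simp [fn, (h4 _ _).1])
  have z1 := zeta_hasProd (w := (1 + σ : ℝ) + y) (by simp; linarith)
  have z2 := zeta_hasProd (w := (1 + σ : ℝ) + y + I * a) (by simp; linarith)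
  have z3 := zeta_hasProd (w := (1 + σ : ℝ) + y + y) (by simp; linarith)
  have z4 := zeta_hasProd (w := (1 + σ : ℝ) + I * a) (by simp; linarith)
  have hE : Multipliable fun p : Nat.Primes => 1 + ep y a σ p :=
    multipliable_one_add_of_summable (summable_bound.of_nonneg_of_le (fun _ => norm_nonneg _)
      fun p => norm_ep_le' a hy hσ p.2)
  have hL := (hF.mul z1).mul z2
  have hR := (z3.mul z4).mul hE.hasProd
  refine hL.unique ?_
  have e : (fun p : Nat.Primes => (∑' e : ℕ, fn y a σ ((p : ℕ) ^ e)) *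
      (1 - np ((1 + σ : ℝ) + y) p)⁻¹ * (1 - np ((1 + σ : ℝ) + y + I * a) p)⁻¹) =
      fun p : Nat.Primes => (1 - np ((1 + σ : ℝ) + y + y) p)⁻¹ *
        (1 - np ((1 + σ : ℝ) + I * a) p)⁻¹ * (1 + ep y a σ p) := by
    funext p
    have hp : (p : ℕ).Prime := p.2
    have n1 := one_sub_ne (norm_np_le_half (u := (1 + σ : ℝ) + y) (by simp; linarith) hp)
    have n2 := one_sub_ne (norm_np_le_half (u := (1 + σ : ℝ) + y + I * a) (by simp; linarith) hp)
    have n3 := one_sub_ne (norm_np_le_half (u := (1 + σ : ℝ) + y + y) (by simp; linarith) hp)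
    have n4 := one_sub_ne (norm_np_le_half (u := (1 + σ : ℝ) + I * a) (by simp; linarith) hp)
    simp only [np_add] at n1 n2 n3 n4 ⊢
    rw [mul_assoc, ← sq] at n3
    rw [fn_local h a hy hσ hp, ep, mul_assoc (np ((1 + σ : ℝ) : ℂ) p) (np y p) (np y p), ← sq]
    exact local_identity n3 n4 n1 n2
  rw [e]
  exact hR

lemma zeta_lim {w : ℂ} (hw : w ≠ 0) :
    Tendsto (fun L : ℝ => w / L * riemannZeta (1 + w / L)) atTop (𝓝 1) := by
  have h0 : Tendsto (fun L : ℝ => w / L) atTop (𝓝 0) := by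
    have h1 : Tendsto (fun L : ℝ => ((L⁻¹ : ℝ) : ℂ)) atTop (𝓝 ((0 : ℝ) : ℂ)) :=
      (Complex.continuous_ofReal.tendsto 0).comp tendsto_inv_atTop_zero
    have h2 := h1.const_mul w
    simp only [Complex.ofReal_zero, mul_zero, Complex.ofReal_inv] at h2
    simpa only [div_eq_mul_inv] using h2
  have h1 : Tendsto (fun L : ℝ => 1 + w / L) atTop (𝓝[≠] 1) := by
    refine tendsto_nhdsWithin_iff.mpr ⟨by simpa using h0.const_add 1, ?_⟩
    filter_upwards [eventually_gt_atTop (0 : ℝ)] with L hL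
    have hL' : (L : ℂ) ≠ 0 := by exact_mod_cast hL.ne'
    simp [hw, hL']
  have h2 := riemannZeta_residue_one.comp h1
  refine h2.congr fun L => ?_
  simp

lemma prod_lim {Y s : ℝ} (ab : ℝ) (hY : 0 < Y) (hs : 0 < s) :
    Tendsto (fun L : ℝ => ∏' p : Nat.Primes, (1 + ep (Y / L) (ab / L) (s / L) p)) atTop (𝓝 1) := by
  have h := tendsto_tprod_one_add_of_dominated_convergence (𝓕 := (atTop : Filter ℝ))
    (f := fun (L : ℝ) (p : Nat.Primes) => ep (Y / L) (ab / L) (s / L) p) (g := fun _ => 0)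
    summable_bound (fun p => ?_) ?_
  · simpa using h
  · have hc : Continuous fun y : ℝ => 8 * (((p : ℕ) : ℝ)⁻¹) ^ 2 * ‖np (y : ℂ) p - 1‖ := by
      unfold np
      fun_prop
    have h0 : Tendsto (fun L : ℝ => Y / L) atTop (𝓝 0) := tendsto_id.const_div_atTop Y
    have h1 := (hc.tendsto 0).comp h0
    simp only [Complex.ofReal_zero, np_zero, sub_self, norm_zero, mul_zero] at h1
    refine squeeze_zero_norm' ?_ h1
    filter_upwards [eventually_gt_atTop (0 : ℝ)] with L hL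
    exact norm_ep_le _ (div_pos hY hL).le (div_pos hs hL) p.2
  · filter_upwards [eventually_gt_atTop (0 : ℝ)] with L hL p
    exact norm_ep_le' _ (div_pos hY hL).le (div_pos hs hL) p.2

theorem rl : Ar1Stmt → RLStmt := by
  intro h Y ab s hY hs
  have ne : ∀ w : ℂ, 0 < w.re → w ≠ 0 := fun w hw h0 => by simp [h0] at hw
  have w1 : (s : ℂ) + 2 * Y ≠ 0 := ne _ (by simp; linarith)
  have w2 : (s : ℂ) + I * ab ≠ 0 := ne _ (by simp; linarith)
  have w3 : (s : ℂ) + Y ≠ 0 := ne _ (by simp; linarith)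
  have w4 : (s : ℂ) + Y + I * ab ≠ 0 := ne _ (by simp; linarith)
  have hlim := ((((zeta_lim w1).mul (zeta_lim w2)).mul (prod_lim ab hY hs)).div
    ((zeta_lim w3).mul (zeta_lim w4)) (by norm_num)).mul_const
    (((s : ℂ) + Y) * (s + Y + I * ab) / ((s + 2 * Y) * (s + I * ab)))
  simp only [mul_one, div_one, one_mul] at hlim
  refine hlim.congr' ?_
  filter_upwards [eventually_gt_atTop (0 : ℝ)] with L hL
  have hL' : (L : ℂ) ≠ 0 := by exact_mod_cast hL.ne'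
  have hy := (div_pos hY hL).le
  have hσ := div_pos hs hL
  have he := euler h (ab / L) hy hσ
  have e1 : (((1 + s / L : ℝ) : ℂ) + (Y / L : ℝ) + (Y / L : ℝ)) = 1 + (s + 2 * Y) / L := by
    push_cast; ring
  have e2 : (((1 + s / L : ℝ) : ℂ) + I * (ab / L : ℝ)) = 1 + (s + I * ab) / L := by
    push_cast; ring
  have e4 : (((1 + s / L : ℝ) : ℂ) + (Y / L : ℝ) + I * (ab / L : ℝ)) =
      1 + (s + Y + I * ab) / L := by
    push_cast; ring
  have e3 : (((1 + s / L : ℝ) : ℂ) + (Y / L : ℝ)) = 1 + (s + Y) / L := by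
    push_cast; ring
  have z3 : riemannZeta (1 + (s + Y) / L) ≠ 0 := by
    rw [← e3]
    exact riemannZeta_ne_zero_of_one_lt_re (by simp only [add_re, ofReal_re]; linarith)
  have z4 : riemannZeta (1 + (s + Y + I * ab) / L) ≠ 0 := by
    rw [← e4]
    exact riemannZeta_ne_zero_of_one_lt_re
      (by simp only [add_re, ofReal_re, mul_re, I_re, I_im, ofReal_im]; linarith)
  rw [e1, e2, e4, e3] at he
  have hf : (∑' n : ℕ, rc (Y / L : ℝ) (I * (ab / L : ℝ)) n *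
      (starRingEnd ℂ) (rc (Y / L : ℝ) 0 n) * (Real.exp (-(1 + s / L) * Real.log n) : ℝ)) =
      ∑' n : ℕ, fn (Y / L) (ab / L) (s / L) n :=
    tsum_congr fun n => by rw [fn, np_real]
  rw [hf, Pi.div_apply, ← sub_eq_zero]
  have hS : (∑' n : ℕ, fn (Y / L) (ab / L) (s / L) n) =
      riemannZeta (1 + (s + 2 * Y) / L) * riemannZeta (1 + (s + I * ab) / L) *
        (∏' p : Nat.Primes, (1 + ep (Y / L) (ab / L) (s / L) p)) /
        (riemannZeta (1 + (s + Y) / L) * riemannZeta (1 + (s + Y + I * ab) / L)) := by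
    rw [eq_div_iff (mul_ne_zero z3 z4), ← mul_assoc]
    exact he
  rw [hS]
  field_simp
  ring

end Pool.Agent.MP_ca0a54_nt.H1
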